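import Mathlib.Analysis.SpecialFunctions.Pow.Real
import Mathlib.Data.List.TFAE
import Mathlib.Tactic.TFAE
import Mathlib.Tactic.Linarith
import Mathlib.Tactic.Positivity
import Mathlib.Tactic.Ring
import Mathlib.Tactic.Push
import Mathlib.Data.Nat.Choose.Basic
import Mathlib.Algebra.Order.Archimedean.Basic

/-!
# Vanishing simplicial volume and the Euler characteristic: products with surfaces
-/

set_option autoImplicit false

universe u

namespace Pool.Agent.TH613.EC

/-- A class of closed connected oriented aspherical manifolds which is closed under products and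
contains all closed oriented surfaces of positive genus, with the formal properties of the
dimension, the Euler characteristic and the simplicial volume. -/
structure AsphericalManifolds where
  /-- the manifolds `M` -/
  Man : Type u
  /-- the dimension -/
  dim : Man → ℕ
  /-- the Euler characteristic `χ(M)` -/
  chi : Man → ℤ
  /-- the simplicial volume `‖M‖` -/
  vol : Man → ℝ
  /-- the product `M × N` -/
  prod : Man → Man → Man
  /-- the closed oriented surface of genus `g + 1` -/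
  surf : ℕ → Man
  /-- `dim (M × N) = dim M + dim N` -/
  dim_prod : ∀ M N, dim (prod M N) = dim M + dim N
  /-- `χ(M × N) = χ(M) χ(N)` -/
  chi_prod : ∀ M N, chi (prod M N) = chi M * chi N
  /-- `‖M‖ ≥ 0` -/
  vol_nonneg : ∀ M, 0 ≤ vol M
  /-- `‖M × N‖ ≤ binom(m + n, m) ‖M‖ ‖N‖` for `m = dim M`, `n = dim N` -/
  vol_prod : ∀ M N,
    vol (prod M N) ≤ ((dim M + dim N).choose (dim M) : ℝ) * (vol M * vol N)
  /-- surfaces have dimension 2 -/
  dim_surf : ∀ g, dim (surf g) = 2
  /-- a surface of genus `g + 1` has Euler characteristic `- 2 g` -/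
  chi_surf : ∀ g : ℕ, chi (surf g) = -(2 * (g : ℤ))
  /-- a surface of genus `g + 1` has simplicial volume `4 g` -/
  vol_surf : ∀ g : ℕ, vol (surf g) = 4 * (g : ℝ)

variable (T : AsphericalManifolds.{u})

/-- A size of manifolds which grows at most linearly with the genus when `M` is multiplied by a
surface: the least number `c(M)` of cells of a finite CW complex homotopy equivalent to `M`
(`c(M × Σ) ≤ c(M) (2 g + 4)` for `Σ` of genus `g + 1`), or the sum of the Betti numbers, or the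
least number of generators of `π₁(M)`. -/
structure Size where
  /-- the size -/
  size : T.Man → ℝ
  /-- sizes are nonnegative -/
  nonneg : ∀ M, 0 ≤ size M
  /-- linear growth in the genus -/
  linear : ∀ M, ∃ K : ℝ, ∀ g : ℕ, size (T.prod M (T.surf g)) ≤ K * ((g : ℝ) + 1)

/-- A rank of manifolds which is subadditive for products: the least number of generators of
`π₁(M)`. -/
structure Rank where
  /-- the rank -/
  rank : T.Man → ℕ
  /-- subadditivity -/
  sub : ∀ M N, rank (T.prod M N) ≤ rank M + rank N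
  /-- the fundamental group of a surface of genus `g + 1` has `2 g + 2` generators -/
  surf : ∀ g : ℕ, rank (T.surf g) ≤ 2 * g + 2

variable {T}

theorem vol_prod_zero {M N : T.Man} (h : T.vol M = 0) : T.vol (T.prod M N) = 0 := by
  refine le_antisymm ?_ (T.vol_nonneg _)
  have := T.vol_prod M N
  simpa [h] using this

/-- `M × Σ_g × ⋯ × Σ_g` with `m` factors `Σ_g` of genus `g + 1`. -/
def pw (M : T.Man) (g : ℕ) : ℕ → T.Man
  | 0 => M
  | m + 1 => T.prod (pw M g m) (T.surf g)

theorem dim_pw (M : T.Man) (g m : ℕ) : T.dim (pw M g m) = T.dim M + 2 * m := by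
  induction m with
  | zero => simp [pw]
  | succ m ih => rw [pw, T.dim_prod, ih, T.dim_surf]; ring

theorem vol_pw (M : T.Man) (h : T.vol M = 0) (g m : ℕ) : T.vol (pw M g m) = 0 := by
  induction m with
  | zero => simpa [pw] using h
  | succ m ih => rw [pw]; exact vol_prod_zero ih

theorem chi_pw (M : T.Man) (g m : ℕ) :
    |(T.chi (pw M g m) : ℝ)| = (2 * (g : ℝ)) ^ m * |(T.chi M : ℝ)| := by
  induction m with
  | zero => simp [pw]
  | succ m ih =>
    rw [pw, T.chi_prod, T.chi_surf]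
    push_cast
    rw [abs_mul, ih, abs_neg, abs_of_nonneg (by positivity : (0:ℝ) ≤ 2 * (g : ℝ)), pow_succ]
    ring

theorem rank_pw (r : Rank T) (M : T.Man) (g m : ℕ) :
    r.rank (pw M g m) ≤ r.rank M + m * (2 * g + 2) := by
  induction m with
  | zero => simp [pw]
  | succ m ih =>
    rw [pw]
    calc r.rank (T.prod (pw M g m) (T.surf g)) ≤ r.rank (pw M g m) + r.rank (T.surf g) := r.sub _ _
      _ ≤ (r.rank M + m * (2 * g + 2)) + (2 * g + 2) := Nat.add_le_add ih (r.surf g)
      _ = r.rank M + (m + 1) * (2 * g + 2) := by ring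

theorem one_le_abs {z : ℤ} (h : z ≠ 0) : (1 : ℝ) ≤ |(z : ℝ)| := by
  have : (1 : ℤ) ≤ |z| := Int.one_le_abs h
  exact_mod_cast this

/-- sublinear bound in dimension `n + 2` gives the vanishing in dimension `n` -/
theorem zero_of_sublinear (s : Size T) (n : ℕ)
    (h : ∀ ε : ℝ, 0 < ε → ∃ C : ℝ, ∀ M : T.Man, T.dim M = n + 2 → T.vol M = 0 →
      |(T.chi M : ℝ)| ≤ ε * s.size M + C)
    (M : T.Man) (hn : T.dim M = n) (hv : T.vol M = 0) : T.chi M = 0 := by
  by_contra hne
  obtain ⟨K, hK⟩ := s.linear M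
  have hKpos : 0 < |K| + 1 := by positivity
  obtain ⟨C, hC⟩ := h (1 / (|K| + 1)) (by positivity)
  obtain ⟨g, hg⟩ := exists_nat_gt (1 + C)
  have h1 := hC (T.prod M (T.surf g)) (by rw [T.dim_prod, T.dim_surf, hn]) (vol_prod_zero hv)
  have h2 : |(T.chi (T.prod M (T.surf g)) : ℝ)| = 2 * (g : ℝ) * |(T.chi M : ℝ)| := by
    have := chi_pw M g 1
    simpa [pw] using this
  have h3 : 1 / (|K| + 1) * s.size (T.prod M (T.surf g)) ≤ (g : ℝ) + 1 := by
    have h4 := hK g
    have h5 : K * ((g : ℝ) + 1) ≤ (|K| + 1) * ((g : ℝ) + 1) := by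
      apply mul_le_mul_of_nonneg_right _ (by positivity)
      linarith [le_abs_self K]
    rw [one_div, inv_mul_le_iff₀ hKpos]
    linarith
  have h6 : (1 : ℝ) ≤ |(T.chi M : ℝ)| := one_le_abs hne
  have h7 : 2 * (g : ℝ) ≤ 2 * (g : ℝ) * |(T.chi M : ℝ)| :=
    le_mul_of_one_le_right (by positivity) h6
  rw [h2] at h1
  linarith

/-- polynomial bound in the rank in dimension `n + 2 m`, of degree less than `m`, gives the vanishing
in dimension `n` -/
theorem zero_of_polynomial (r : Rank T) (n m k : ℕ) (hk : k < m) (C : ℝ)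
    (h : ∀ M : T.Man, T.dim M = n + 2 * m → T.vol M = 0 →
      |(T.chi M : ℝ)| ≤ C * (1 + (r.rank M : ℝ)) ^ k)
    (M : T.Man) (hn : T.dim M = n) (hv : T.vol M = 0) : T.chi M = 0 := by
  by_contra hne
  have h6 : (1 : ℝ) ≤ |(T.chi M : ℝ)| := one_le_abs hne
  set A : ℝ := 1 + (r.rank M : ℝ) + 4 * m with hA
  have hApos : 0 < A := by positivity
  obtain ⟨g, hg⟩ := exists_nat_gt (|C| * A ^ k)
  have hgpos : (0 : ℝ) < g := lt_of_le_of_lt (by positivity) hg
  have hg1 : (1 : ℝ) ≤ g := by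
    have : 0 < g := by exact_mod_cast hgpos
    exact_mod_cast this
  have h1 := h (pw M g m) (by rw [dim_pw, hn]) (vol_pw M hv g m)
  rw [chi_pw] at h1
  have h2 : (1 + (r.rank (pw M g m) : ℝ)) ≤ A * g := by
    have h3 : (r.rank (pw M g m) : ℝ) ≤ (r.rank M : ℝ) + m * (2 * g + 2) := by
      exact_mod_cast rank_pw r M g m
    have h4 : 1 + (r.rank M : ℝ) ≤ (1 + (r.rank M : ℝ)) * g :=
      le_mul_of_one_le_right (by positivity) hg1
    have h5 : (m : ℝ) * (2 * g + 2) ≤ 4 * m * g := by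
      nlinarith [mul_le_mul_of_nonneg_left hg1 (Nat.cast_nonneg (α := ℝ) m)]
    rw [hA]
    linarith
  have h3 : C * (1 + (r.rank (pw M g m) : ℝ)) ^ k ≤ |C| * (A * g) ^ k := by
    refine mul_le_mul (le_abs_self C) ?_ (by positivity) (abs_nonneg C)
    exact pow_le_pow_left₀ (by positivity) h2 k
  have h4 : ((g : ℝ)) ^ m ≤ (2 * (g : ℝ)) ^ m * |(T.chi M : ℝ)| := by
    have : ((g : ℝ)) ^ m ≤ (2 * (g : ℝ)) ^ m := pow_le_pow_left₀ hgpos.le (by linarith) m
    exact le_trans this (le_mul_of_one_le_right (by positivity) h6)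
  have h5 : (g : ℝ) ^ (k + 1) ≤ (g : ℝ) ^ m := pow_le_pow_right₀ hg1 hk
  have h7 : (g : ℝ) ^ (k + 1) ≤ |C| * A ^ k * (g : ℝ) ^ k := by
    calc (g : ℝ) ^ (k + 1) ≤ |C| * (A * g) ^ k := by linarith
      _ = |C| * A ^ k * (g : ℝ) ^ k := by rw [mul_pow]; ring
  have h8 : (g : ℝ) ≤ |C| * A ^ k := by
    have hgk : (0 : ℝ) < (g : ℝ) ^ k := by positivity
    have : (g : ℝ) * (g : ℝ) ^ k ≤ |C| * A ^ k * (g : ℝ) ^ k := by
      rw [pow_succ] at h7
      linarith [mul_comm ((g : ℝ) ^ k) (g : ℝ)]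
    exact le_of_mul_le_mul_right this hgk
  linarith

/-- The equivalence. -/
theorem main (s : Size T) (r : Rank T) :
    List.TFAE [
      ∀ M : T.Man, T.vol M = 0 → T.chi M = 0,
      ∀ n : ℕ, ∃ C : ℝ, ∀ M : T.Man, T.dim M = n → T.vol M = 0 → |(T.chi M : ℝ)| ≤ C,
      ∀ n : ℕ, ∀ ε : ℝ, 0 < ε → ∃ C : ℝ, ∀ M : T.Man, T.dim M = n → T.vol M = 0 →
        |(T.chi M : ℝ)| ≤ ε * s.size M + C,
      ∃ k : ℕ → ℕ, (∀ n, ∃ m, k (n + 2 * m) < m) ∧ ∀ n : ℕ, ∃ C : ℝ, ∀ M : T.Man,
        T.dim M = n → T.vol M = 0 → |(T.chi M : ℝ)| ≤ C * (1 + (r.rank M : ℝ)) ^ k n] := by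
  tfae_have 1 → 2 := by
    intro h n
    exact ⟨0, fun M _ hv => by simp [h M hv]⟩
  tfae_have 2 → 3 := by
    intro h n ε hε
    obtain ⟨C, hC⟩ := h n
    refine ⟨C, fun M hn hv => le_trans (hC M hn hv) ?_⟩
    have := mul_nonneg hε.le (s.nonneg M)
    linarith
  tfae_have 3 → 1 := by
    intro h M hv
    exact zero_of_sublinear s (T.dim M) (h (T.dim M + 2)) M rfl hv
  tfae_have 2 → 4 := by
    intro h
    refine ⟨fun _ => 0, fun n => ⟨1, Nat.one_pos⟩, fun n => ?_⟩
    obtain ⟨C, hC⟩ := h n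
    exact ⟨C, fun M hn hv => by simpa using hC M hn hv⟩
  tfae_have 4 → 1 := by
    rintro ⟨k, hk, h⟩ M hv
    obtain ⟨m, hm⟩ := hk (T.dim M)
    obtain ⟨C, hC⟩ := h (T.dim M + 2 * m)
    exact zero_of_polynomial r (T.dim M) m _ hm C hC M rfl hv
  tfae_finish

end Pool.Agent.TH613.EC
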